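import Mathlib

set_option autoImplicit false

open Complex Topology Filter Metric Set

namespace Pool.Agent.H713R2.TV

/-- A zero-free holomorphic function on a disc is the exponential of a holomorphic function. -/
theorem exists_log_ball {h : ℂ → ℂ} {c : ℂ} {r : ℝ} (hr : 0 < r)
    (hh : DifferentiableOn ℂ h (ball c r)) (h0 : ∀ t ∈ ball c r, h t ≠ 0) :
    ∃ g : ℂ → ℂ, (∀ t ∈ ball c r, HasDerivAt g (deriv h t / h t) t) ∧
      ∀ t ∈ ball c r, Complex.exp (g t) = h t := by
  have hc : c ∈ ball c r := mem_ball_self hr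
  have hder : DifferentiableOn ℂ (fun t => deriv h t / h t) (ball c r) :=
    (hh.deriv isOpen_ball).div hh h0
  obtain ⟨g, hg⟩ := hder.isExactOn_ball
  have hhd : ∀ t ∈ ball c r, HasDerivAt h (deriv h t) t := fun t ht =>
    (hh.differentiableAt (isOpen_ball.mem_nhds ht)).hasDerivAt
  have h1 : ∀ t ∈ ball c r, HasDerivAt (fun t => h t * Complex.exp (-g t)) 0 t := by
    intro t ht
    have h2 := (hhd t ht).mul ((hg t ht).neg.cexp)
    have h3 : deriv h t * Complex.exp (-g t) +
        h t * (Complex.exp (-g t) * -(deriv h t / h t)) = 0 := by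
      have := h0 t ht
      field_simp
      ring
    exact (h3 ▸ h2 :)
  have hconst : ∀ t ∈ ball c r, h t * Complex.exp (-g t) = h c * Complex.exp (-g c) := by
    intro t ht
    have hd : DifferentiableOn ℂ (fun t => h t * Complex.exp (-g t)) (ball c r) := fun x hx =>
      (h1 x hx).differentiableAt.differentiableWithinAt
    exact (convex_ball c r).is_const_of_fderivWithin_eq_zero (𝕜 := ℂ) hd (fun x hx => by
      rw [fderivWithin_of_isOpen isOpen_ball hx]
      have := (h1 x hx).hasFDerivAt.fderiv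
      rw [this]
      ext
      simp) ht hc
  refine ⟨fun t => g t + (Complex.log (h c) - g c), ?_, ?_⟩
  · intro t ht
    exact (hg t ht).add_const _
  · intro t ht
    have h2 := hconst t ht
    have h3 : h t = h c * Complex.exp (-g c) * Complex.exp (g t) := by
      rw [← h2, mul_assoc, ← Complex.exp_add, neg_add_cancel, Complex.exp_zero, mul_one]
    rw [Complex.exp_add, Complex.exp_sub, Complex.exp_log (h0 c hc), h3, Complex.exp_neg]
    ring

/-- Schwarz-Pick for holomorphic functions with values in a punctured disc, at the centre. -/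
theorem punctured_sp {h : ℂ → ℂ} {c : ℂ} {r B : ℝ} (hr : 0 < r)
    (hh : DifferentiableOn ℂ h (ball c r)) (h0 : ∀ t ∈ ball c r, h t ≠ 0)
    (hB : ∀ t ∈ ball c r, ‖h t‖ < B) :
    r * ‖deriv h c‖ ≤ 2 * ‖h c‖ * Real.log (B / ‖h c‖) := by
  have hc : c ∈ ball c r := mem_ball_self hr
  have hhc : 0 < ‖h c‖ := norm_pos_iff.mpr (h0 c hc)
  have hB0 : 0 < B := hhc.trans (hB c hc)
  obtain ⟨g, hg, hge⟩ := exists_log_ball hr hh h0
  set L : ℝ := Real.log B with hL
  have hnorm : ∀ t ∈ ball c r, (g t).re = Real.log ‖h t‖ := by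
    intro t ht
    rw [← hge t ht, Complex.norm_exp, Real.log_exp]
  -- v has negative real part
  set v : ℂ → ℂ := fun t => g t - L with hv
  have hvre : ∀ t ∈ ball c r, (v t).re < 0 := by
    intro t ht
    simp only [hv, Complex.sub_re, Complex.ofReal_re]
    rw [hnorm t ht]
    have := Real.log_lt_log (norm_pos_iff.mpr (h0 t ht)) (hB t ht)
    linarith
  have hvd : ∀ t ∈ ball c r, HasDerivAt v (deriv h t / h t) t := fun t ht => (hg t ht).sub_const _
  have hvre0 := hvre c hc
  have hden : ∀ t ∈ ball c r, v t + (starRingEnd ℂ) (v c) ≠ 0 := by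
    intro t ht h1
    have h2 : (v t + (starRingEnd ℂ) (v c)).re = 0 := by rw [h1]; rfl
    rw [Complex.add_re, Complex.conj_re] at h2
    have := hvre t ht
    linarith
  set φ : ℂ → ℂ := fun t => (v t - v c) / (v t + (starRingEnd ℂ) (v c)) with hφ
  have hφd : DifferentiableOn ℂ φ (ball c r) := by
    intro t ht
    have h1 := (hvd t ht).differentiableAt
    exact ((h1.sub_const _).div (h1.add_const _) (hden t ht)).differentiableWithinAt
  have hφc : φ c = 0 := by simp [hφ]
  have hφm : MapsTo φ (ball c r) (closedBall (φ c) 1) := by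
    intro t ht
    rw [hφc, mem_closedBall_zero_iff]
    simp only [hφ]
    rw [norm_div, div_le_one (norm_pos_iff.mpr (hden t ht))]
    rw [← sq_le_sq₀ (norm_nonneg _) (norm_nonneg _), ← Complex.normSq_eq_norm_sq,
      ← Complex.normSq_eq_norm_sq]
    simp only [Complex.normSq_apply, Complex.sub_re, Complex.sub_im, Complex.add_re,
      Complex.add_im, Complex.conj_re, Complex.conj_im]
    have := hvre t ht
    nlinarith [mul_pos_of_neg_of_neg this hvre0]
  have h2 := Complex.norm_deriv_le_div_of_mapsTo_ball hφd hφm hr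
  have h3 : HasDerivAt φ ((deriv h c / h c) / (v c + (starRingEnd ℂ) (v c))) c := by
    have h4 := (hvd c hc).sub_const (v c)
    have h5 := (hvd c hc).add_const ((starRingEnd ℂ) (v c))
    have h6 := h4.div h5 (hden c hc)
    have h7 : (deriv h c / h c * (v c + (starRingEnd ℂ) (v c)) - (v c - v c) * (deriv h c / h c)) /
      (v c + (starRingEnd ℂ) (v c)) ^ 2 = (deriv h c / h c) / (v c + (starRingEnd ℂ) (v c)) := by
      have := hden c hc
      rw [sub_self, zero_mul, sub_zero, sq, mul_div_mul_right _ _ this]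
    rw [← h7]
    exact h6
  rw [h3.deriv, norm_div, norm_div] at h2
  have h7 : ‖v c + (starRingEnd ℂ) (v c)‖ = 2 * Real.log (B / ‖h c‖) := by
    rw [Complex.add_conj, Complex.norm_real, Real.norm_eq_abs, abs_of_neg (by linarith)]
    simp only [hv, Complex.sub_re, Complex.ofReal_re]
    rw [hnorm c hc, Real.log_div hB0.ne' hhc.ne']
    ring
  rw [h7] at h2
  have h8 : 0 < Real.log (B / ‖h c‖) := Real.log_pos (by rw [lt_div_iff₀ hhc, one_mul]; exact hB c hc)
  have h9 : ‖deriv h c‖ / ‖h c‖ ≤ 1 / r * (2 * Real.log (B / ‖h c‖)) := by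
    rwa [div_le_iff₀ (by positivity)] at h2
  rw [div_le_iff₀ hhc] at h9
  calc r * ‖deriv h c‖ ≤ r * (1 / r * (2 * Real.log (B / ‖h c‖)) * ‖h c‖) := by gcongr
    _ = 2 * ‖h c‖ * Real.log (B / ‖h c‖) := by field_simp

end Pool.Agent.H713R2.TV
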