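import Mathlib
import Pool.Agent.H713R2.AR.HB
import Pool.Agent.H713R2.TV.TV1

set_option autoImplicit false

open Complex Topology Filter Metric Set N62a1eb23

namespace Pool.Agent.H713R2.TV

open Pool.Agent.H713R2 Pool.Agent.H712R2 Pool.Agent.H713R2.AR

theorem mem_AA_pow {d : ℕ} {j : ℕ} {c x : ℂ} (hc : Bd d c)
    (hx : ‖x‖ ^ (d ^ j) * 2 < 1) : (c, x) ∈ AA d j := by
  intro i _ _
  simp only
  have h2 := hc i
  have h4 : 0 ≤ ‖x‖ ^ (d ^ j) := by positivity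
  nlinarith

/-- Holomorphic dependence on the parameter. -/
theorem seq_diff_param {d : ℕ} (hd : 2 ≤ d) {G : ℕ → ℂ × ℂ → ℂ} (hG : IsSeq d G) {S : Set ℂ}
    (hS : IsOpen S) (hB : ∀ t ∈ S, Bd d t) (j : ℕ) :
    ∀ t ∈ S, ∀ x : ℂ, ‖x‖ ^ (d ^ j) * 2 < 1 → DifferentiableAt ℂ (fun t => G j (t, x)) t := by
  induction j with
  | zero =>
    intro t _ x _
    have h1 : (fun t => G 0 (t, x)) = fun _ => 1 := by funext t; exact hG.base _
    rw [h1]
    exact differentiableAt_const _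
  | succ j ih =>
    intro t ht x hx
    have hcont : ContinuousAt (fun t => G (j + 1) (t, x)) t := by
      have h1 : ContinuousAt (G (j + 1)) (t, x) :=
        (hG.isG (j + 1)).cont.continuousAt
          ((isOpen_AA d (j + 1)).mem_nhds (mem_AA_pow (hB t ht) hx))
      exact h1.comp (f := fun t : ℂ => (t, x)) (by fun_prop)
    have hx' : ‖x ^ d‖ ^ (d ^ j) * 2 < 1 := by
      rw [norm_pow, ← pow_mul, ← pow_succ']
      exact hx
    apply differentiableAt_of_pow (N := d) (p := fun t => G j (t, x ^ d) - t * x ^ d) (by omega)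
      hcont ((hG.isG (j + 1)).ne _ (mem_AA_pow (hB t ht) hx))
    · exact (ih t ht (x ^ d) hx').sub (by fun_prop)
    · filter_upwards [hS.mem_nhds ht] with s hs
      exact hG.relation j s x (mem_AA_pow (hB s hs) hx)

/-- The holomorphic motion of a point of the basin of infinity. -/
structure IsMotion (d : ℕ) (S : Set ℂ) (j : ℕ) (c u : ℂ) (z : ℂ → ℂ) : Prop where
  diff : DifferentiableOn ℂ z S
  at_c : z c = u
  iter : ∀ t ∈ S, (fc d t)^[j] (z t) = (fc d c)^[j] u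

theorem exists_motion {d : ℕ} (hd : 2 ≤ d) {S : Set ℂ}
    (hS : IsOpen S) (hB : ∀ t ∈ S, Bd d t) (j : ℕ) {c : ℂ} (hc : c ∈ S) {u v : ℂ}
    (hu : 2 < ‖(fc d c)^[j] u‖) (hv : 2 < ‖(fc d c)^[j] v‖) (huv : u ≠ v) :
    ∃ z w : ℂ → ℂ, IsMotion d S j c u z ∧ IsMotion d S j c v w ∧ ∀ t ∈ S, z t ≠ w t := by
  obtain ⟨G, hG⟩ := exists_seq hd
  have key : ∀ u : ℂ, 2 < ‖(fc d c)^[j] u‖ → ∃ x : ℂ, x ≠ 0 ∧ ‖x‖ ^ (d ^ j) * 2 < 1 ∧
      x⁻¹ * G j (c, x) = u ∧ ∀ t ∈ S, (fc d t)^[j] (x⁻¹ * G j (t, x)) = (fc d c)^[j] u := by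
    intro u hu
    have hne : (fc d c)^[j] u ≠ 0 := by
      intro h; rw [h, norm_zero] at hu; linarith
    have hu0 : u ≠ 0 := by
      rintro rfl
      have h1 := hB c hc j
      have h2 : P d j c = (fc d c)^[j] 0 := rfl
      rw [← h2] at hu
      linarith
    obtain ⟨x, hx0, hxA, hx⟩ := (hG.isG j).surj c u hu0 hne
      (fun i _ _ => (hB c hc i).trans_lt hu)
    have h1 := (hG.isG j).conj c x hxA hx0
    rw [hx] at h1
    have h2 : ‖x‖ ^ (d ^ j) * 2 < 1 := by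
      have h3 : ‖x‖ ^ (d ^ j) * ‖(fc d c)^[j] u‖ = 1 := by
        rw [h1, norm_pow, norm_inv, ← mul_pow, mul_inv_cancel₀ (norm_ne_zero_iff.mpr hx0), one_pow]
      have h4 : 0 < ‖x‖ ^ (d ^ j) := pow_pos (norm_pos_iff.mpr hx0) _
      nlinarith
    refine ⟨x, hx0, h2, hx, ?_⟩
    intro t ht
    rw [h1]
    exact (hG.isG j).conj t x (mem_AA_pow (hB t ht) h2) hx0
  obtain ⟨x, hx0, hx2, hxu, hxi⟩ := key u hu
  obtain ⟨y, hy0, hy2, hyv, hyi⟩ := key v hv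
  refine ⟨fun t => x⁻¹ * G j (t, x), fun t => y⁻¹ * G j (t, y), ⟨?_, hxu, hxi⟩, ⟨?_, hyv, hyi⟩, ?_⟩
  · exact fun t ht => ((seq_diff_param hd hG hS hB j t ht x hx2).const_mul _).differentiableWithinAt
  · exact fun t ht => ((seq_diff_param hd hG hS hB j t ht y hy2).const_mul _).differentiableWithinAt
  · intro t ht h
    have h1 := (hG.isG j).inj t x y (mem_AA_pow (hB t ht) hx2) (mem_AA_pow (hB t ht) hy2) hx0 hy0 h
    apply huv
    rw [← hxu, ← hyv, h1]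

end Pool.Agent.H713R2.TV
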