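import Mathlib
import Pool.Agent.H713R2.TV.TV2

set_option autoImplicit false

open Complex Topology Filter Metric Set N62a1eb23

namespace Pool.Agent.H713R2.TV

open Pool.Agent.H713R2 Pool.Agent.H712R2 Pool.Agent.H713R2.AR

theorem differentiable_fc (d : ℕ) (c : ℂ) : Differentiable ℂ (fc d c) := by
  unfold fc; fun_prop

theorem hasDerivAt_fc (d : ℕ) (c z : ℂ) : HasDerivAt (fc d c) (d * z ^ (d - 1)) z := by
  unfold fc
  exact (hasDerivAt_pow d z).add_const c

theorem deriv_iter_succ (d : ℕ) (c u : ℂ) (k : ℕ) :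
    deriv ((fc d c)^[k + 1]) u = d * ((fc d c)^[k] u) ^ (d - 1) * deriv ((fc d c)^[k]) u := by
  have h1 : HasDerivAt ((fc d c)^[k]) (deriv ((fc d c)^[k]) u) u :=
    ((differentiable_fc d c).iterate k u).hasDerivAt
  have h2 := (hasDerivAt_fc d c ((fc d c)^[k] u)).comp u h1
  rw [Function.iterate_succ']
  exact h2.deriv

theorem deriv_iter_ne {d : ℕ} (hd : 2 ≤ d) {c u : ℂ} (k : ℕ)
    (h : ∀ i < k, (fc d c)^[i] u ≠ 0) : deriv ((fc d c)^[k]) u ≠ 0 := by
  induction k with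
  | zero => simp
  | succ k ih =>
    rw [deriv_iter_succ]
    refine mul_ne_zero (mul_ne_zero ?_ (pow_ne_zero _ (h k (by omega))))
      (ih fun i hi => h i (by omega))
    exact_mod_cast (by omega : d ≠ 0)

/-- The velocity of the motion. -/
theorem deriv_motion {d : ℕ} (hd : 2 ≤ d) {S : Set ℂ} (hS : IsOpen S) {j : ℕ} {c u : ℂ}
    (hc : c ∈ S) (hne : ∀ i < j, (fc d c)^[i] u ≠ 0) {z : ℂ → ℂ} (hz : IsMotion d S j c u z) :
    deriv z c = - ∑ k ∈ Finset.range j, (deriv ((fc d c)^[k + 1]) u)⁻¹ := by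
  have hzd : HasDerivAt z (deriv z c) c :=
    (hz.diff.differentiableAt (hS.mem_nhds hc)).hasDerivAt
  have key : ∀ k ≤ j, HasDerivAt (fun t => (fc d t)^[k] (z t))
      (deriv ((fc d c)^[k]) u *
        (deriv z c + ∑ i ∈ Finset.range k, (deriv ((fc d c)^[i + 1]) u)⁻¹)) c := by
    intro k hk
    induction k with
    | zero =>
      simp only [Function.iterate_zero, id, Finset.range_zero, Finset.sum_empty, add_zero]
      have : deriv (id : ℂ → ℂ) u = 1 := (hasDerivAt_id u).deriv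
      rw [this, one_mul]
      exact hzd
    | succ k ih =>
      have h1 := ih (by omega)
      have h2 : HasDerivAt (fun t => ((fc d t)^[k] (z t)) ^ d + t)
          (d * ((fc d c)^[k] (z c)) ^ (d - 1) * (deriv ((fc d c)^[k]) u *
            (deriv z c + ∑ i ∈ Finset.range k, (deriv ((fc d c)^[i + 1]) u)⁻¹)) + 1) c :=
        (h1.pow d).add (hasDerivAt_id c)
      have h3 : (fun t => (fc d t)^[k + 1] (z t)) = fun t => ((fc d t)^[k] (z t)) ^ d + t := by
        funext t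
        rw [Function.iterate_succ_apply']
        rfl
      rw [h3]
      convert h2 using 1
      rw [hz.at_c, Finset.sum_range_succ, ← add_assoc, mul_add,
        mul_inv_cancel₀ (deriv_iter_ne hd (k + 1) (fun i hi => hne i (by omega))),
        deriv_iter_succ]
      ring
  have h1 := key j le_rfl
  have h2 : HasDerivAt (fun t => (fc d t)^[j] (z t)) 0 c := by
    refine (hasDerivAt_const c ((fc d c)^[j] u)).congr_of_eventuallyEq ?_
    filter_upwards [hS.mem_nhds hc] with t ht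
    exact hz.iter t ht
  have h3 := h1.unique h2
  have h4 := (mul_eq_zero.mp h3).resolve_left (deriv_iter_ne hd j hne)
  exact eq_neg_of_add_eq_zero_left h4

theorem pow_succ_ge (d : ℕ) (hd : 2 ≤ d) {x : ℝ} (hx : 2 ≤ x) : x ^ d + 4 ≤ (x + 1) ^ d := by
  obtain ⟨e, rfl⟩ : ∃ e, d = e + 2 := ⟨d - 2, by omega⟩
  induction e with
  | zero =>
    simp only [zero_add]
    nlinarith
  | succ e ih =>
    have h1 := ih (by omega)
    have h2 : 0 ≤ x ^ (e + 2) := by positivity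
    calc x ^ (e + 1 + 2) + 4 = x ^ (e + 2) * x + 4 := by ring
      _ ≤ (x ^ (e + 2) + 4) * (x + 1) := by nlinarith
      _ ≤ (x + 1) ^ (e + 2) * (x + 1) := by
        apply mul_le_mul_of_nonneg_right h1 (by linarith)
      _ = (x + 1) ^ (e + 1 + 2) := by ring

/-- Upper growth. -/
theorem grow_up {d : ℕ} (hd : 2 ≤ d) {c u : ℂ} (hc : ‖c‖ ≤ 2) (j : ℕ) :
    ‖(fc d c)^[j] u‖ + 1 ≤ (max ‖u‖ 2 + 1) ^ (d ^ j) := by
  have key : max ‖(fc d c)^[j] u‖ 2 + 1 ≤ (max ‖u‖ 2 + 1) ^ (d ^ j) := by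
    induction j with
    | zero => simp
    | succ j ih =>
      rw [Function.iterate_succ_apply']
      set w := (fc d c)^[j] u with hw
      set m := max ‖w‖ 2 with hm
      have hm2 : 2 ≤ m := le_max_right _ _
      have h1 : ‖fc d c w‖ ≤ m ^ d + 2 := by
        unfold fc
        refine (norm_add_le _ _).trans (add_le_add ?_ hc)
        rw [norm_pow]
        exact pow_le_pow_left₀ (norm_nonneg _) (le_max_left _ _) d
      have h2 : max ‖fc d c w‖ 2 ≤ m ^ d + 2 := max_le h1 (by positivity |> fun (h : 0 ≤ m ^ d) => by linarith)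
      have h3 := pow_succ_ge d hd hm2
      calc max ‖fc d c w‖ 2 + 1 ≤ (m + 1) ^ d := by linarith
        _ ≤ ((max ‖u‖ 2 + 1) ^ (d ^ j)) ^ d := pow_le_pow_left₀ (by linarith) ih d
        _ = (max ‖u‖ 2 + 1) ^ (d ^ (j + 1)) := by rw [← pow_mul, pow_succ]
  have h1 : ‖(fc d c)^[j] u‖ ≤ max ‖(fc d c)^[j] u‖ 2 := le_max_left _ _
  linarith

/-- Lower growth. -/
theorem grow_low {d : ℕ} (hd : 2 ≤ d) {t z : ℂ} (ht : ‖t‖ ≤ 2) (hz : 3 ≤ ‖z‖) (j : ℕ) :
    (‖z‖ - 1) ^ (d ^ j) + 1 ≤ ‖(fc d t)^[j] z‖ ∧ 3 ≤ ‖(fc d t)^[j] z‖ := by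
  induction j with
  | zero => simpa using hz
  | succ j ih =>
    rw [Function.iterate_succ_apply']
    set w := (fc d t)^[j] z with hw
    obtain ⟨h1, h2⟩ := ih
    have h3 : ‖w‖ ^ d - 2 ≤ ‖fc d t w‖ := by
      unfold fc
      have h4 := norm_sub_norm_le (w ^ d) (-t)
      rw [sub_neg_eq_add, norm_neg, norm_pow] at h4
      linarith
    have h4 := pow_succ_ge d hd (x := ‖w‖ - 1) (by linarith)
    rw [sub_add_cancel] at h4
    have h5 : (‖z‖ - 1) ^ (d ^ (j + 1)) ≤ (‖w‖ - 1) ^ d := by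
      rw [pow_succ, pow_mul]
      exact pow_le_pow_left₀ (pow_nonneg (by linarith) _) (by linarith) d
    have h6 : 1 ≤ (‖w‖ - 1) ^ d := one_le_pow₀ (by linarith)
    constructor <;> linarith

theorem norm_motion_lt {d : ℕ} (hd : 2 ≤ d) {c t u z : ℂ} (hc : ‖c‖ ≤ 2) (ht : ‖t‖ ≤ 2) {j : ℕ}
    (h : (fc d t)^[j] z = (fc d c)^[j] u) : ‖z‖ < ‖u‖ + 4 := by
  have h0 := norm_nonneg u
  rcases lt_or_ge ‖z‖ 3 with hz | hz
  · linarith
  · have h1 := (grow_low hd ht hz j).1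
    have h2 := grow_up (u := u) hd hc j
    rw [h] at h1
    have h3 : (‖z‖ - 1) ^ (d ^ j) < (max ‖u‖ 2 + 1) ^ (d ^ j) := by linarith
    have h4 := lt_of_pow_lt_pow_left₀ _ (by positivity) h3
    have h5 : max ‖u‖ 2 ≤ ‖u‖ + 2 := max_le (by linarith) (by linarith)
    linarith

end Pool.Agent.H713R2.TV
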