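import Mathlib
import Pool.Agent.H713R2.TV.TV3

set_option autoImplicit false

open Complex Topology Filter Metric Set N62a1eb23

namespace Pool.Agent.H713R2.TV

open Pool.Agent.H713R2 Pool.Agent.H712R2 Pool.Agent.H713R2.AR

/-- The orbit tends to infinity. -/
def Esc (d : ℕ) (c u : ℂ) : Prop := Tendsto (fun k => (fc d c)^[k] u) atTop (Bornology.cobounded ℂ)

theorem Esc.eventually {d : ℕ} {c u : ℂ} (h : Esc d c u) (A : ℝ) :
    ∀ᶠ k in atTop, A < ‖(fc d c)^[k] u‖ :=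
  (tendsto_norm_cobounded_atTop.comp h).eventually (eventually_gt_atTop A)

theorem Esc.ne_zero {d : ℕ} {c u : ℂ} (h : Esc d c u) (hc : Bd d c) (i : ℕ) :
    (fc d c)^[i] u ≠ 0 := by
  intro h0
  obtain ⟨k, hk1, hk2⟩ := ((h.eventually 2).and (eventually_ge_atTop i)).exists
  have h1 : (fc d c)^[k] u = P d (k - i) c := by
    have h2 : k = (k - i) + i := by omega
    conv_lhs => rw [h2, Function.iterate_add_apply, h0]
    rfl
  rw [h1] at hk1
  exact absurd (hc (k - i)) (not_le.mpr hk1)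

theorem Esc.summable {d : ℕ} (hd : 2 ≤ d) {c u : ℂ} (h : Esc d c u) (hc : Bd d c) :
    Summable (fun k => (deriv ((fc d c)^[k + 1]) u)⁻¹) := by
  apply summable_of_ratio_norm_eventually_le (r := 1 / 2) (by norm_num)
  filter_upwards [(tendsto_add_atTop_nat 1).eventually (h.eventually 2)] with k hk
  rw [deriv_iter_succ (k := k + 1), mul_inv, norm_mul]
  apply mul_le_mul_of_nonneg_right _ (norm_nonneg _)
  rw [norm_inv, norm_mul, norm_pow, one_div]
  apply inv_anti₀ two_pos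
  have h1 : (2 : ℝ) ≤ ‖(d : ℂ)‖ := by
    rw [Complex.norm_natCast]; exact_mod_cast hd
  have h2 : 1 ≤ ‖(fc d c)^[k + 1] u‖ ^ (d - 1) := one_le_pow₀ (by linarith)
  nlinarith

/-- Finite level, critical value orbit. -/
theorem level_crit {d : ℕ} (hd : 2 ≤ d) {c : ℂ} {r : ℝ} (hr : 0 < r)
    (hM : ∀ t ∈ ball c r, Bd d t) {u : ℂ} (hu : Esc d c u) (n : ℕ) {j : ℕ}
    (hj : 2 < ‖(fc d c)^[j] u‖) :
    r * ‖deriv (P d n) c + ∑ k ∈ Finset.range j, (deriv ((fc d c)^[k + 1]) u)⁻¹‖ ≤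
      2 * ‖u - P d n c‖ * Real.log ((‖u‖ + 6) / ‖u - P d n c‖) := by
  have hc : c ∈ ball c r := mem_ball_self hr
  have hle : ∀ t ∈ ball c r, ‖t‖ ≤ 2 := fun t ht => by
    have := hM t ht 1; rwa [P_one hd] at this
  -- an auxiliary second point
  obtain ⟨v, hv, hvj⟩ : ∃ v, v ≠ u ∧ 2 < ‖(fc d c)^[j] v‖ := by
    refine ⟨((‖u‖ + 3 : ℝ) : ℂ), ?_, ?_⟩
    · intro h
      have h1 : ‖((‖u‖ + 3 : ℝ) : ℂ)‖ = ‖u‖ := by rw [h]
      rw [Complex.norm_real, Real.norm_eq_abs, abs_of_pos (by positivity)] at h1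
      linarith
    · have h1 : 3 ≤ ‖((‖u‖ + 3 : ℝ) : ℂ)‖ := by
        rw [Complex.norm_real, Real.norm_eq_abs, abs_of_pos (by positivity)]
        linarith [norm_nonneg u]
      have := (grow_low hd (hle c hc) h1 j).2
      linarith
  obtain ⟨z, w, hz, -, -⟩ := exists_motion hd isOpen_ball hM j hc hj hvj hv.symm
  set h : ℂ → ℂ := fun t => z t - P d n t with hh
  have hhd : DifferentiableOn ℂ h (ball c r) :=
    hz.diff.sub (differentiable_P d n).differentiableOn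
  have hh0 : ∀ t ∈ ball c r, h t ≠ 0 := by
    intro t ht h0
    have h1 : z t = P d n t := sub_eq_zero.mp h0
    have h2 := hz.iter t ht
    have h3 : (fc d t)^[j] (z t) = P d (j + n) t := by
      rw [h1]
      unfold P
      rw [Function.iterate_add_apply]
    rw [h3] at h2
    rw [← h2] at hj
    exact absurd (hM t ht (j + n)) (not_le.mpr hj)
  have hhB : ∀ t ∈ ball c r, ‖h t‖ < ‖u‖ + 6 := by
    intro t ht
    have h1 := norm_motion_lt hd (hle c hc) (hle t ht) (hz.iter t ht)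
    have h2 := hM t ht n
    have h3 := norm_sub_le (z t) (P d n t)
    simp only [hh]
    linarith
  have h1 := punctured_sp hr hhd hh0 hhB
  have h2 : deriv h c = -(deriv (P d n) c +
      ∑ k ∈ Finset.range j, (deriv ((fc d c)^[k + 1]) u)⁻¹) := by
    have h3 : HasDerivAt h (deriv z c - deriv (P d n) c) c :=
      ((hz.diff.differentiableAt (isOpen_ball.mem_nhds hc)).hasDerivAt).sub
        (differentiable_P d n c).hasDerivAt
    rw [h3.deriv, deriv_motion hd isOpen_ball hc (fun i _ => hu.ne_zero (hM c hc) i) hz]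
    ring
  rw [h2, norm_neg] at h1
  simp only [hh, hz.at_c] at h1
  exact h1

/-- Finite level, two points. -/
theorem level_two {d : ℕ} (hd : 2 ≤ d) {c : ℂ} {r : ℝ} (hr : 0 < r)
    (hM : ∀ t ∈ ball c r, Bd d t) {u v : ℂ} (hu : Esc d c u) (hv : Esc d c v) (huv : u ≠ v) {j : ℕ}
    (hju : 2 < ‖(fc d c)^[j] u‖) (hjv : 2 < ‖(fc d c)^[j] v‖) :
    r * ‖∑ k ∈ Finset.range j, (deriv ((fc d c)^[k + 1]) u)⁻¹ -
      ∑ k ∈ Finset.range j, (deriv ((fc d c)^[k + 1]) v)⁻¹‖ ≤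
      2 * ‖u - v‖ * Real.log ((‖u‖ + ‖v‖ + 8) / ‖u - v‖) := by
  have hc : c ∈ ball c r := mem_ball_self hr
  have hle : ∀ t ∈ ball c r, ‖t‖ ≤ 2 := fun t ht => by
    have := hM t ht 1; rwa [P_one hd] at this
  obtain ⟨z, w, hz, hw, hzw⟩ := exists_motion hd isOpen_ball hM j hc hju hjv huv
  set h : ℂ → ℂ := fun t => z t - w t with hh
  have hhd : DifferentiableOn ℂ h (ball c r) := hz.diff.sub hw.diff
  have hh0 : ∀ t ∈ ball c r, h t ≠ 0 := fun t ht => sub_ne_zero.mpr (hzw t ht)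
  have hhB : ∀ t ∈ ball c r, ‖h t‖ < ‖u‖ + ‖v‖ + 8 := by
    intro t ht
    have h1 := norm_motion_lt hd (hle c hc) (hle t ht) (hz.iter t ht)
    have h2 := norm_motion_lt hd (hle c hc) (hle t ht) (hw.iter t ht)
    have h3 := norm_sub_le (z t) (w t)
    simp only [hh]
    linarith
  have h1 := punctured_sp hr hhd hh0 hhB
  have h2 : deriv h c = -(∑ k ∈ Finset.range j, (deriv ((fc d c)^[k + 1]) u)⁻¹ -
      ∑ k ∈ Finset.range j, (deriv ((fc d c)^[k + 1]) v)⁻¹) := by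
    have h3 : HasDerivAt h (deriv z c - deriv w c) c :=
      ((hz.diff.differentiableAt (isOpen_ball.mem_nhds hc)).hasDerivAt).sub
        ((hw.diff.differentiableAt (isOpen_ball.mem_nhds hc)).hasDerivAt)
    rw [h3.deriv, deriv_motion hd isOpen_ball hc (fun i _ => hu.ne_zero (hM c hc) i) hz,
      deriv_motion hd isOpen_ball hc (fun i _ => hv.ne_zero (hM c hc) i) hw]
    ring
  rw [h2, norm_neg] at h1
  simp only [hh, hz.at_c, hw.at_c] at h1
  exact h1

theorem main_crit {d : ℕ} (hd : 2 ≤ d) {c : ℂ} {r : ℝ} (hr : 0 < r)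
    (hM : ∀ t ∈ ball c r, Bd d t) {u : ℂ} (hu : Esc d c u) (n : ℕ) :
    r * ‖deriv (P d n) c + ∑' k, (deriv ((fc d c)^[k + 1]) u)⁻¹‖ ≤
      2 * ‖u - P d n c‖ * Real.log ((‖u‖ + 6) / ‖u - P d n c‖) := by
  have hs := (hu.summable hd (hM c (mem_ball_self hr))).hasSum.tendsto_sum_nat
  refine le_of_tendsto ((hs.const_add (deriv (P d n) c)).norm.const_mul r) ?_
  filter_upwards [hu.eventually 2] with j hj
  exact level_crit hd hr hM hu n hj

theorem main_two {d : ℕ} (hd : 2 ≤ d) {c : ℂ} {r : ℝ} (hr : 0 < r)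
    (hM : ∀ t ∈ ball c r, Bd d t) {u v : ℂ} (hu : Esc d c u) (hv : Esc d c v) (huv : u ≠ v) :
    r * ‖∑' k, (deriv ((fc d c)^[k + 1]) u)⁻¹ - ∑' k, (deriv ((fc d c)^[k + 1]) v)⁻¹‖ ≤
      2 * ‖u - v‖ * Real.log ((‖u‖ + ‖v‖ + 8) / ‖u - v‖) := by
  have hs := (hu.summable hd (hM c (mem_ball_self hr))).hasSum.tendsto_sum_nat
  have hs' := (hv.summable hd (hM c (mem_ball_self hr))).hasSum.tendsto_sum_nat
  refine le_of_tendsto ((hs.sub hs').norm.const_mul r) ?_
  filter_upwards [hu.eventually 2, hv.eventually 2] with j hj hj'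
  exact level_two hd hr hM hu hv huv hj hj'

end Pool.Agent.H713R2.TV
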